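import Pool.Agent.N593.DZ.Real

/-!
# Finite sets of denominators
-/

set_option autoImplicit false

open Filter Topology MeasureTheory Finset

namespace Pool.Agent.N593.DZ

open Pool.Agent.N220.CF (FinitelyMet finitely_usual)

lemma finitely_lt (q₀ : ℕ) : FinitelyMet {q : ℕ | q < q₀} := by
  classical
  have h : ∀ᶠ X : ℝ in atTop, (q₀ : ℝ) * Real.log X ^ 2 ≤ X := by
    have h1 := (Real.isLittleO_pow_log_id_atTop (n := 2)).bound (show (0 : ℝ) < 1 / (q₀ + 1) by positivity)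
    filter_upwards [h1, eventually_ge_atTop (1 : ℝ)] with X h2 h3
    rw [id, Real.norm_of_nonneg (by positivity), Real.norm_of_nonneg (by linarith), one_div, inv_mul_eq_div,
      le_div_iff₀ (by positivity)] at h2
    nlinarith [sq_nonneg (Real.log X)]
  obtain ⟨X₀, hX₀⟩ := eventually_atTop.1 h
  refine finitely_usual _ le_rfl ⟨max 3 ⌈X₀⌉₊, fun X hX => ?_⟩
  have hX1 : X₀ ≤ X := (Nat.le_ceil X₀).trans (by exact_mod_cast (le_max_right _ _).trans hX)
  have hX3 : 3 ≤ X := (le_max_left _ _).trans hX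
  have hX3' : (3 : ℝ) ≤ X := by exact_mod_cast hX3
  have hl : 0 < Real.log X := Real.log_pos (by linarith)
  have h1 : ((Icc 1 X).filter (fun v => v ∈ {q : ℕ | q < q₀})).card ≤ q₀ := by
    calc _ ≤ (range q₀).card := card_le_card fun v hv => mem_range.2 (mem_filter.1 hv).2
      _ = q₀ := card_range _
  have h1' : (((Icc 1 X).filter (fun v => v ∈ {q : ℕ | q < q₀})).card : ℝ) ≤ q₀ := by exact_mod_cast h1
  rw [le_div_iff₀ (by positivity)]
  refine le_trans (mul_le_mul_of_nonneg_right (le_trans (le_of_eq ?_) h1') (by positivity)) (hX₀ _ hX1)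
  congr!

/-- large heights -/
lemma large {G : ℕ → ℝ} {a : ℝ} (ha : 0 < a) (h : ∀ v : ℕ, 1 ≤ v → a ≤ G (v + 1) - G v) (M : ℝ) :
    ∃ q₀ : ℕ, ∀ q : ℕ, q₀ ≤ q → M ≤ G q := by
  obtain ⟨n, hn⟩ := exists_nat_ge ((M - G 1) / a + 1)
  refine ⟨n + 1, fun q hq => ?_⟩
  have h1 := gap_lin h (show 1 ≤ q by omega)
  have h2 : (n : ℝ) ≤ q := by exact_mod_cast (by omega : n ≤ q)
  have h3 : (M - G 1) / a ≤ q - 1 := by linarith
  rw [div_le_iff₀ ha] at h3
  linarith

end Pool.Agent.N593.DZ
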