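import Pool.Agent.N220.CF.E
import Pool.Agent.N220.CF.L

/-!
# Exceptional sets of real numbers and the denominators of good approximations

`B` is a set of real numbers of small measure, `G` a sequence with gaps at least `a`. If the interval `[G q, G q + a)` lies in
`B` for many `q` then `B` is large. With the engine `Pool.Agent.N220.CF` of helper220.
-/

set_option autoImplicit false

open Filter Topology MeasureTheory Finset
open scoped ENNReal NNReal

namespace Pool.Agent.N593.DZ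

open Pool.Agent.N220.CF (FinitelyMet RarelyMet finitely_dyadic rarely_set)

lemma gap_mono {G : ℕ → ℝ} {a : ℝ} (ha : 0 < a) (h : ∀ v : ℕ, 1 ≤ v → a ≤ G (v + 1) - G v) {u v : ℕ} (hu : 1 ≤ u)
    (huv : u < v) : G u + a ≤ G v := by
  induction v, huv using Nat.le_induction with
  | base => linarith [h u hu]
  | succ n hn ih => linarith [h n (by omega)]

lemma gap_lin {G : ℕ → ℝ} {a : ℝ} (h : ∀ v : ℕ, 1 ≤ v → a ≤ G (v + 1) - G v) {v : ℕ} (hv : 1 ≤ v) :
    G 1 + a * ((v : ℝ) - 1) ≤ G v := by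
  induction v, hv using Nat.le_induction with
  | base => simp
  | succ n hn ih =>
    have := h n hn
    push_cast
    linarith

/-- many intervals in `B` -/
lemma count_le {G : ℕ → ℝ} {a : ℝ} (ha : 0 < a) (h : ∀ v : ℕ, 1 ≤ v → a ≤ G (v + 1) - G v) (B : Set ℝ) (F : Finset ℕ)
    (hF1 : ∀ q ∈ F, 1 ≤ q) (hF : ∀ q ∈ F, Set.Ico (G q) (G q + a) ⊆ B) {V : ℝ} (hV : 0 ≤ V)
    (hB : volume B ≤ ENNReal.ofReal V) : a * (F.card : ℝ) ≤ V := by
  have h1 : volume (⋃ q ∈ F, Set.Ico (G q) (G q + a)) = ∑ q ∈ F, volume (Set.Ico (G q) (G q + a)) := by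
    apply measure_biUnion_finset
    · intro u hu v hv huv
      rw [Function.onFun, Set.disjoint_left]
      rintro x ⟨hx1, hx2⟩ ⟨hx3, hx4⟩
      rcases lt_or_gt_of_ne huv with hlt | hlt
      · linarith [gap_mono ha h (hF1 u hu) hlt]
      · linarith [gap_mono ha h (hF1 v hv) hlt]
    · intro q _
      exact measurableSet_Ico
  have h2 : ∑ q ∈ F, volume (Set.Ico (G q) (G q + a)) = ENNReal.ofReal (a * F.card) := by
    simp only [Real.volume_Ico, add_sub_cancel_left, sum_const, nsmul_eq_mul]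
    rw [mul_comm a, ENNReal.ofReal_mul (Nat.cast_nonneg _), ENNReal.ofReal_natCast]
  have h3 : volume (⋃ q ∈ F, Set.Ico (G q) (G q + a)) ≤ volume B := measure_mono (Set.iUnion₂_subset hF)
  rw [h1, h2] at h3
  exact (ENNReal.ofReal_le_ofReal_iff hV).1 (h3.trans hB)

/-- **Power saving.** -/
theorem rarely_real (B : Set ℝ) {G : ℕ → ℝ} {a d C₁ : ℝ} (ha : 0 < a) (hd : 1 ≤ d)
    (h : ∀ v : ℕ, 1 ≤ v → a ≤ G (v + 1) - G v) (hG : ∀ v : ℕ, 1 ≤ v → G v ≤ C₁ * (v : ℝ) ^ d)
    {s : ℝ} (hs : 0 ≤ s) (h1 : d * s < 1)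
    (hB : ∀ ε : ℝ, 0 < ε → ∃ C : ℝ, ∀ X : ℝ, 1 ≤ X → volume (B ∩ Set.Icc 1 X) ≤ ENNReal.ofReal (C * X ^ (s + ε))) :
    RarelyMet (d * s) {q : ℕ | 1 ≤ G q ∧ Set.Ico (G q) (G q + a) ⊆ B} := by
  classical
  refine rarely_set _ (by positivity) h1 fun ε hε => ?_
  have hd0 : 0 < d := by linarith
  obtain ⟨C, hC⟩ := hB (ε / d) (by positivity)
  refine ⟨|C| * (|C₁| + a + 1) ^ (s + ε / d) / a, fun X hX => ?_⟩
  have hX1 : (1 : ℝ) ≤ X := by exact_mod_cast hX
  have hXd : (1 : ℝ) ≤ (X : ℝ) ^ d := Real.one_le_rpow hX1 hd0.le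
  obtain ⟨Y, hY⟩ : ∃ Y : ℝ, Y = (|C₁| + a + 1) * (X : ℝ) ^ d := ⟨_, rfl⟩
  have hY1 : 1 ≤ Y := by
    rw [hY]
    have := abs_nonneg C₁
    nlinarith
  have hse : 0 ≤ s + ε / d := by positivity
  have hV : volume (B ∩ Set.Icc 1 Y) ≤ ENNReal.ofReal (|C| * Y ^ (s + ε / d)) :=
    (hC Y hY1).trans (ENNReal.ofReal_le_ofReal (mul_le_mul_of_nonneg_right (le_abs_self C) (by positivity)))
  have key := count_le ha h (B ∩ Set.Icc 1 Y)
    ((Icc 1 X).filter (fun v => v ∈ {q : ℕ | 1 ≤ G q ∧ Set.Ico (G q) (G q + a) ⊆ B}))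
    (fun q hq => (mem_Icc.1 (mem_filter.1 hq).1).1) (fun q hq => by
      obtain ⟨hq1, hq2, hq3⟩ := mem_filter.1 hq
      rw [mem_Icc] at hq1
      have hqX : (q : ℝ) ≤ X := by exact_mod_cast hq1.2
      refine Set.subset_inter hq3 ?_
      rintro x ⟨hx1, hx2⟩
      refine ⟨hq2.trans hx1, ?_⟩
      have e1 : G q ≤ |C₁| * (X : ℝ) ^ d := by
        calc G q ≤ C₁ * (q : ℝ) ^ d := hG q hq1.1
          _ ≤ |C₁| * (q : ℝ) ^ d := mul_le_mul_of_nonneg_right (le_abs_self _) (by positivity)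
          _ ≤ |C₁| * (X : ℝ) ^ d := mul_le_mul_of_nonneg_left
              (Real.rpow_le_rpow (Nat.cast_nonneg _) hqX hd0.le) (abs_nonneg _)
      rw [hY]
      nlinarith) (by positivity) hV
  have e2 : Y ^ (s + ε / d) = (|C₁| + a + 1) ^ (s + ε / d) * (X : ℝ) ^ (d * s + ε) := by
    rw [hY, Real.mul_rpow (by positivity) (by positivity), ← Real.rpow_mul (by positivity)]
    congr 2
    field_simp
  rw [e2] at key
  rw [div_mul_eq_mul_div, le_div_iff₀ ha]
  rw [mul_comm _ a]
  refine le_trans ?_ (key.trans (le_of_eq (by ring)))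
  exact le_of_eq (by congr!)

/-- **Logarithmic saving.** -/
theorem finitely_real (B : Set ℝ) {U : ℕ} (hU : 2 ≤ U)
    (hB : ∃ T₀ : ℝ, ∀ T : ℝ, T₀ ≤ T → volume (B ∩ Set.Icc T (2 * T)) ≤ ENNReal.ofReal (T / Real.log T ^ (U + 1)))
    {G : ℕ → ℝ} {a C₁ : ℝ} (ha : 0 < a) (h : ∀ v : ℕ, 1 ≤ v → a ≤ G (v + 1) - G v)
    (hG : ∀ v : ℕ, 1 ≤ v → G v ≤ C₁ * v) :
    FinitelyMet {q : ℕ | Set.Ico (G q) (G q + a) ⊆ B} := by
  classical
  obtain ⟨T₀, hT₀⟩ := hB
  have hmain := finitely_dyadic (fun X => {q : ℕ | (X ≤ 2 * q) ∧ Set.Ico (G q) (G q + a) ⊆ B}) hU (by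
    -- the number of the dyadic intervals
    obtain ⟨K, hK⟩ := pow_unbounded_of_one_lt (4 * (|C₁| + a) / a) (one_lt_two : (1 : ℝ) < 2)
    have ev1 : ∀ᶠ X : ℕ in atTop, T₀ ≤ a / 4 * (X : ℝ) := by
      have : Tendsto (fun X : ℕ => a / 4 * (X : ℝ)) atTop atTop :=
        tendsto_natCast_atTop_atTop.const_mul_atTop (by positivity)
      exact this.eventually (eventually_ge_atTop T₀)
    have ev2 : ∀ᶠ X : ℕ in atTop, 3 ≤ a / 4 * (X : ℝ) := by
      have : Tendsto (fun X : ℕ => a / 4 * (X : ℝ)) atTop atTop :=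
        tendsto_natCast_atTop_atTop.const_mul_atTop (by positivity)
      exact this.eventually (eventually_ge_atTop 3)
    have ev3 : ∀ᶠ X : ℕ in atTop, -(G 1) + a ≤ a / 4 * (X : ℝ) := by
      have : Tendsto (fun X : ℕ => a / 4 * (X : ℝ)) atTop atTop :=
        tendsto_natCast_atTop_atTop.const_mul_atTop (by positivity)
      exact this.eventually (eventually_ge_atTop _)
    have hlogt : Tendsto (fun X : ℕ => Real.log (X : ℝ)) atTop atTop :=
      Real.tendsto_log_atTop.comp tendsto_natCast_atTop_atTop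
    have ev4 : ∀ᶠ X : ℕ in atTop, -2 * Real.log (a / 4) ≤ Real.log (X : ℝ) := hlogt.eventually (eventually_ge_atTop _)
    have ev5 : ∀ᶠ X : ℕ in atTop, (2 : ℝ) ^ K * 2 ^ (U + 1) ≤ Real.log (X : ℝ) := hlogt.eventually (eventually_ge_atTop _)
    obtain ⟨X₀, hX₀⟩ := eventually_atTop.1 (ev1.and (ev2.and (ev3.and (ev4.and (ev5.and (eventually_ge_atTop 3))))))
    refine ⟨X₀, fun X hX => ?_⟩
    obtain ⟨g1, g2, g3, g4, g5, g6⟩ := hX₀ X hX
    obtain ⟨L, hL⟩ : ∃ L : ℝ, L = a / 4 * (X : ℝ) := ⟨_, rfl⟩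
    rw [← hL] at g1 g2 g3
    have hX3 : (3 : ℝ) ≤ X := by exact_mod_cast g6
    have hL0 : 0 < L := by linarith
    have hlL : 1 ≤ Real.log L := by
      rw [Real.le_log_iff_exp_le hL0]
      have := Real.exp_one_lt_d9
      linarith
    have hlL2 : Real.log X / 2 ≤ Real.log L := by
      have : Real.log L = Real.log (a / 4) + Real.log X := by
        rw [hL, Real.log_mul (by positivity) (by positivity)]
      linarith
    -- the measure of `B` in `[L, 2^K L]`
    have hV : volume (B ∩ Set.Icc L (2 ^ K * L)) ≤ ENNReal.ofReal (2 ^ K * (L / Real.log L ^ (U + 1))) := by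
      have hind : ∀ k : ℕ, volume (B ∩ Set.Icc L (2 ^ k * L)) ≤ ENNReal.ofReal ((2 ^ k - 1) * (L / Real.log L ^ (U + 1))) := by
        intro k
        induction k with
        | zero =>
          rw [pow_zero, one_mul, Set.Icc_self, sub_self, zero_mul, ENNReal.ofReal_zero]
          exact le_trans (measure_mono Set.inter_subset_right) (by rw [Real.volume_singleton])
        | succ k ih =>
          have hk1 : (1 : ℝ) ≤ 2 ^ k := one_le_pow₀ (by norm_num)
          have hsub : B ∩ Set.Icc L (2 ^ (k + 1) * L) ⊆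
              (B ∩ Set.Icc L (2 ^ k * L)) ∪ (B ∩ Set.Icc (2 ^ k * L) (2 * (2 ^ k * L))) := by
            rintro x ⟨hx, hx1, hx2⟩
            rcases le_total x (2 ^ k * L) with hx3 | hx3
            · exact Or.inl ⟨hx, hx1, hx3⟩
            · refine Or.inr ⟨hx, hx3, hx2.trans (le_of_eq ?_)⟩
              rw [pow_succ]
              ring
          have hkL : L ≤ 2 ^ k * L := by nlinarith
          have h5 := hT₀ (2 ^ k * L) (g1.trans hkL)
          have h6 : 2 ^ k * L / Real.log (2 ^ k * L) ^ (U + 1) ≤ 2 ^ k * (L / Real.log L ^ (U + 1)) := by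
            rw [mul_div_assoc]
            apply mul_le_mul_of_nonneg_left _ (by positivity)
            apply div_le_div_of_nonneg_left hL0.le (by positivity)
            exact pow_le_pow_left₀ (by linarith) (Real.log_le_log hL0 hkL) _
          calc _ ≤ volume (B ∩ Set.Icc L (2 ^ k * L)) + volume (B ∩ Set.Icc (2 ^ k * L) (2 * (2 ^ k * L))) :=
                (measure_mono hsub).trans (measure_union_le _ _)
            _ ≤ ENNReal.ofReal ((2 ^ k - 1) * (L / Real.log L ^ (U + 1))) + ENNReal.ofReal (2 ^ k * (L / Real.log L ^ (U + 1))) :=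
                add_le_add ih (h5.trans (ENNReal.ofReal_le_ofReal h6))
            _ = _ := by
                rw [← ENNReal.ofReal_add (mul_nonneg (by linarith) (by positivity)) (by positivity)]
                congr 1
                rw [pow_succ]
                ring
      refine (hind K).trans (ENNReal.ofReal_le_ofReal ?_)
      have : 0 ≤ L / Real.log L ^ (U + 1) := by positivity
      nlinarith
    have key := count_le ha h (B ∩ Set.Icc L (2 ^ K * L))
      ((Icc 1 X).filter (fun v => v ∈ {q : ℕ | (X ≤ 2 * q) ∧ Set.Ico (G q) (G q + a) ⊆ B}))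
      (fun q hq => (mem_Icc.1 (mem_filter.1 hq).1).1) (fun q hq => by
        obtain ⟨hq1, hq2, hq3⟩ := mem_filter.1 hq
        rw [mem_Icc] at hq1
        have hqX : (q : ℝ) ≤ X := by exact_mod_cast hq1.2
        have hqX2 : (X : ℝ) ≤ 2 * q := by exact_mod_cast hq2
        refine Set.subset_inter hq3 ?_
        rintro x ⟨hx1, hx2⟩
        have e0 := gap_lin h hq1.1
        have e1 : G q ≤ |C₁| * (X : ℝ) := by
          calc G q ≤ C₁ * (q : ℝ) := hG q hq1.1
            _ ≤ |C₁| * (q : ℝ) := mul_le_mul_of_nonneg_right (le_abs_self _) (by positivity)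
            _ ≤ |C₁| * (X : ℝ) := mul_le_mul_of_nonneg_left hqX (abs_nonneg _)
        constructor
        · rw [hL]
          rw [hL] at g3
          nlinarith
        · have e2 : (|C₁| + a) * (X : ℝ) ≤ 2 ^ K * L := by
            have e3 : 4 * (|C₁| + a) / a * L ≤ 2 ^ K * L := mul_le_mul_of_nonneg_right hK.le hL0.le
            have e4 : 4 * (|C₁| + a) / a * L = (|C₁| + a) * (X : ℝ) := by
              rw [hL]
              field_simp
            linarith
          nlinarith) (by positivity) hV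
    -- conclusion
    have hlX : 0 < Real.log X := Real.log_pos (by linarith)
    have e5 : 2 ^ K * (L / Real.log L ^ (U + 1)) ≤ a * (X / Real.log X ^ U) := by
      rw [mul_div_assoc', mul_div_assoc', div_le_div_iff₀ (by positivity) (by positivity)]
      have e6 : (Real.log X / 2) ^ (U + 1) ≤ Real.log L ^ (U + 1) := pow_le_pow_left₀ (by positivity) hlL2 _
      have e7 : 2 ^ K * Real.log X ^ U ≤ Real.log L ^ (U + 1) := by
        refine le_trans ?_ e6
        rw [div_pow, le_div_iff₀ (by positivity), pow_succ (Real.log X)]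
        have : 0 < Real.log X ^ U := by positivity
        nlinarith
      have e8 : L ≤ a * X := by
        rw [hL]
        nlinarith
      calc 2 ^ K * L * Real.log X ^ U = L * (2 ^ K * Real.log X ^ U) := by ring
        _ ≤ (a * X) * Real.log L ^ (U + 1) := mul_le_mul e8 e7 (by positivity) (by positivity)
    have e9 := le_of_mul_le_mul_left (key.trans e5) ha
    refine le_trans (le_of_eq ?_) e9
    congr!)
  refine hmain.subset fun q hq hq2 => ?_
  refine ⟨?_, hq2⟩
  have := Nat.pow_log_le_self 2 (show q ≠ 0 by omega)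
  rw [pow_succ]
  omega

end Pool.Agent.N593.DZ
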